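import Pool.Agent.Lib.MP_322aed_lc.Bridge

/-!
Mealy automata whose state is the last letter and a synchronizing counter.
-/

namespace Pool.Agent.FS.FixAlph

open Function Pointwise Pool.Agent.Lib.MP_322aed_lc

/-- The map on words of state `x` of the Mealy automaton `(δ, ρ)`:
`ρ_x(a u) = ρ_x(a) ρ_{δ x a}(u)`. -/
def mealy {A α : Type} (δ : A → α → A) (ρ : A → Equiv.Perm α) : A → List α → List α
  | _, [] => []
  | x, a :: u => ρ x a :: mealy δ ρ (δ x a) u

theorem mealy_nil {A α : Type} (δ : A → α → A) (ρ : A → Equiv.Perm α) (x : A) :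
    mealy δ ρ x [] = [] := rfl

theorem mealy_cons {A α : Type} (δ : A → α → A) (ρ : A → Equiv.Perm α) (x : A) (a : α)
    (u : List α) : mealy δ ρ x (a :: u) = ρ x a :: mealy δ ρ (δ x a) u := rfl

/-- Every state of an invertible automaton acts bijectively on words. -/
theorem mealy_bijective {A α : Type} (δ : A → α → A) (ρ : A → Equiv.Perm α) (x : A) :
    Bijective (mealy δ ρ x) := by
  constructor
  · intro u v h
    induction u generalizing x v with
    | nil => cases v with
      | nil => rfl
      | cons b v => simp [mealy_nil, mealy_cons] at h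
    | cons a u ih => cases v with
      | nil => simp [mealy_nil, mealy_cons] at h
      | cons b v =>
        simp only [mealy_cons, List.cons.injEq, EmbeddingLike.apply_eq_iff_eq] at h
        obtain ⟨rfl, h⟩ := h
        rw [ih _ h]
  · intro v
    induction v generalizing x with
    | nil => exact ⟨[], rfl⟩
    | cons b v ih =>
      obtain ⟨u, hu⟩ := ih (δ x ((ρ x).symm b))
      exact ⟨(ρ x).symm b :: u, by simp [mealy_cons, hu]⟩

theorem mealy_congr {A B α : Type} (e : A ≃ B) (δ : A → α → A) (ρ : A → Equiv.Perm α) (y : B)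
    (u : List α) :
    mealy (fun y a => e (δ (e.symm y) a)) (fun y => ρ (e.symm y)) y u = mealy δ ρ (e.symm y) u := by
  induction u generalizing y with
  | nil => rfl
  | cons a u ih => rw [mealy_cons, mealy_cons, ih, Equiv.symm_apply_apply]

/-- A reset automaton with a static lane, and a counter that computes the lane. -/
structure Dat (α Δ : Type) where
  ρ : α × Δ → Equiv.Perm (α × Δ)
  nxt : Δ → α → Δ
  lane : ∀ x y, (ρ x y).2 = y.2
  inv : ∀ x y d, nxt d (ρ x y).1 = nxt d y.1

variable {α Δ : Type} [Finite α] (Z : Dat α Δ)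

/-- The output permutations. -/
noncomputable def Dat.σ (x : α × Δ) : Equiv.Perm α :=
  Equiv.ofBijective (fun a => (Z.ρ x (a, Z.nxt x.2 a)).1) (by
    apply Finite.injective_iff_bijective.mp
    intro a b h
    have h0 : (Z.ρ x (a, Z.nxt x.2 a)).1 = (Z.ρ x (b, Z.nxt x.2 b)).1 := h
    have h1 : Z.nxt x.2 a = Z.nxt x.2 b := by
      have e1 := Z.inv x (a, Z.nxt x.2 a) x.2
      have e2 := Z.inv x (b, Z.nxt x.2 b) x.2
      rw [h0] at e1
      exact e1.symm.trans e2
    have h2 : Z.ρ x (a, Z.nxt x.2 a) = Z.ρ x (b, Z.nxt x.2 b) :=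
      Prod.ext h0 (by rw [Z.lane, Z.lane]; exact h1)
    exact congrArg Prod.fst ((Z.ρ x).injective h2))

/-- The transitions. -/
def Dat.δ (x : α × Δ) (a : α) : α × Δ := (a, Z.nxt x.2 a)

/-- The generators. -/
noncomputable def Dat.g (x : α × Δ) : Equiv.Perm (List α) :=
  Equiv.ofBijective (mealy Z.δ Z.σ x) (mealy_bijective _ _ x)

theorem Dat.g_cons (x : α × Δ) (a : α) (u : List α) :
    Z.g x (a :: u) = (Z.ρ x (a, Z.nxt x.2 a)).1 :: Z.g (a, Z.nxt x.2 a) u := rfl

theorem Dat.g_nil (x : α × Δ) : Z.g x [] = [] := rfl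

theorem Dat.g_length (x : α × Δ) (u : List α) : (Z.g x u).length = u.length := by
  induction u generalizing x with
  | nil => rfl
  | cons a u ih => rw [Z.g_cons, List.length_cons, ih, List.length_cons]

theorem Dat.g_take (x : α × Δ) (u : List α) (n : ℕ) : (Z.g x u).take n = Z.g x (u.take n) := by
  induction u generalizing x n with
  | nil => rw [Z.g_nil, List.take_nil, Z.g_nil]
  | cons a u ih =>
    cases n with
    | zero => rfl
    | succ n => rw [Z.g_cons, List.take_succ_cons, ih, List.take_succ_cons, Z.g_cons]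

theorem Dat.g_fold (x : α × Δ) (u : List α) (d : Δ) :
    (Z.g x u).foldl Z.nxt d = u.foldl Z.nxt d := by
  induction u generalizing x d with
  | nil => rfl
  | cons a u ih => rw [Z.g_cons, List.foldl_cons, List.foldl_cons, ih, Z.inv]

theorem Dat.g_get (x : α × Δ) (u : List α) (k : ℕ) (a b : α) (ha : u[k]? = some a)
    (hb : u[k + 1]? = some b) : (Z.g x u)[k + 1]? =
      some (Z.ρ (a, (u.take (k + 1)).foldl Z.nxt x.2)
        (b, Z.nxt ((u.take (k + 1)).foldl Z.nxt x.2) b)).1 := by
  induction u generalizing x k with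
  | nil => simp at ha
  | cons y u ih =>
    cases k with
    | zero =>
      cases u with
      | nil => simp at hb
      | cons y' u =>
        simp only [List.getElem?_cons_zero, Option.some.injEq, zero_add,
          List.getElem?_cons_succ] at ha hb
        subst ha hb
        rfl
    | succ k =>
      rw [List.getElem?_cons_succ] at ha hb
      exact ih (y, Z.nxt x.2 y) k ha hb

theorem Dat.prod_length (w : List (α × Δ)) (u : List α) :
    ((w.map Z.g).prod u).length = u.length := by
  induction w with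
  | nil => rfl
  | cons x w ih => rw [List.map_cons, List.prod_cons, Equiv.Perm.mul_apply, Z.g_length, ih]

theorem Dat.prod_take (w : List (α × Δ)) (u : List α) (n : ℕ) :
    ((w.map Z.g).prod u).take n = (w.map Z.g).prod (u.take n) := by
  induction w with
  | nil => rfl
  | cons x w ih =>
    rw [List.map_cons, List.prod_cons, Equiv.Perm.mul_apply, Z.g_take, ih, Equiv.Perm.mul_apply]

theorem Dat.prod_fold (w : List (α × Δ)) (u : List α) (d : Δ) :
    ((w.map Z.g).prod u).foldl Z.nxt d = u.foldl Z.nxt d := by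
  induction w with
  | nil => rfl
  | cons x w ih => rw [List.map_cons, List.prod_cons, Equiv.Perm.mul_apply, Z.g_fold, ih]

omit [Finite α] in
theorem Dat.iter_lane (c : ℤ → α × Δ) (t : ℕ) (i : ℤ) : ((ca Z.ρ)^[t] c i).2 = (c i).2 := by
  induction t with
  | zero => rfl
  | succ t ih => rw [iterate_succ_apply', ca, Z.lane, ih]

omit [Finite α] in
theorem Dat.iter_nxt (c : ℤ → α × Δ) (t : ℕ) (i : ℤ) (d : Δ) :
    Z.nxt d ((ca Z.ρ)^[t] c i).1 = Z.nxt d (c i).1 := by
  induction t with
  | zero => rfl
  | succ t ih => rw [iterate_succ_apply', ca, Z.inv, ih]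

omit [Finite α] in
theorem Dat.fold_succ (u : List α) (k : ℕ) (b : α) (hb : u[k]? = some b) (d : Δ) :
    (u.take (k + 1)).foldl Z.nxt d = Z.nxt ((u.take k).foldl Z.nxt d) b := by
  rw [List.take_add_one, hb, List.foldl_append]
  rfl

theorem Dat.prod_get (w : List (α × Δ)) (u : List α) (c : ℤ → α × Δ) (o : ℤ) (m : ℕ)
    (h : ∀ k, k < u.length → u[k]? = some (c (o + k)).1)
    (hl : ∀ x ∈ w, ∀ k, m ≤ k → k < u.length →
      (u.take (k + 1)).foldl Z.nxt x.2 = (c (o + k)).2)
    (k : ℕ) (h1 : m + w.length ≤ k) (h2 : k < u.length) :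
    ((w.map Z.g).prod u)[k]? = some ((ca Z.ρ)^[w.length] c (o + k)).1 := by
  induction w generalizing k with
  | nil => exact h k h2
  | cons x w ih =>
    obtain ⟨k, rfl⟩ : ∃ k', k = k' + 1 := ⟨k - 1, by simp at h1; omega⟩
    simp only [List.length_cons] at h1
    have ih' := ih fun y hy => hl y (List.mem_cons_of_mem _ hy)
    have e1 : (((w.map Z.g).prod u).take (k + 1)).foldl Z.nxt x.2 =
        ((ca Z.ρ)^[w.length] c (o + k)).2 := by
      rw [Z.prod_take, Z.prod_fold, hl x (by simp) k (by omega) (by omega), Z.iter_lane]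
    have e2 : Z.nxt ((ca Z.ρ)^[w.length] c (o + k)).2
        ((ca Z.ρ)^[w.length] c (o + ((k + 1 : ℕ) : ℤ))).1 =
        ((ca Z.ρ)^[w.length] c (o + ((k + 1 : ℕ) : ℤ))).2 := by
      rw [Z.iter_nxt, Z.iter_lane, Z.iter_lane, ← hl x (by simp) k (by omega) (by omega),
        ← hl x (by simp) (k + 1) (by omega) h2, Z.fold_succ u (k + 1) _ (h (k + 1) h2)]
    rw [List.map_cons, List.prod_cons, Equiv.Perm.mul_apply,
      Z.g_get x _ k _ _ (ih' k (by omega) (by omega)) (ih' (k + 1) (by omega) h2), e1, e2,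
      List.length_cons, iterate_succ_apply', ca]
    rw [show o + ((k + 1 : ℕ) : ℤ) - 1 = o + k by push_cast; ring]

theorem Dat.per_of_finite (h : Finite (Subgroup.closure (Set.range Z.g))) :
    ∃ P, 0 < P ∧ ∀ c : ℤ → α × Δ, (∀ i, (c i).2 = Z.nxt (c (i - 1)).2 (c i).1) →
      (ca Z.ρ)^[P] c = c := by
  refine ⟨Nat.card (Subgroup.closure (Set.range Z.g)), Nat.card_pos, fun c hc => funext fun i => ?_⟩
  have h0 : ∀ x, Z.g x ^ Nat.card (Subgroup.closure (Set.range Z.g)) = 1 := fun x =>
    congrArg Subtype.val (pow_card_eq_one' (G := Subgroup.closure (Set.range Z.g))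
      (x := ⟨Z.g x, Subgroup.subset_closure ⟨x, rfl⟩⟩))
  generalize Nat.card (Subgroup.closure (Set.range Z.g)) = P at h0
  have hu : ∀ k, k < (List.ofFn (fun k : Fin (P + 1) => (c (i - P + k)).1)).length →
      (List.ofFn (fun k : Fin (P + 1) => (c (i - P + k)).1))[k]? = some (c (i - P + k)).1 := by
    intro k hk
    rw [List.length_ofFn] at hk
    rw [List.getElem?_ofFn, dif_pos hk]
  have hl : ∀ k, k < (List.ofFn (fun k : Fin (P + 1) => (c (i - P + k)).1)).length →
      ((List.ofFn (fun k : Fin (P + 1) => (c (i - P + k)).1)).take (k + 1)).foldl Z.nxt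
        (c (i - P - 1)).2 = (c (i - P + k)).2 := by
    intro k
    induction k with
    | zero =>
      intro hk
      rw [Z.fold_succ _ 0 _ (hu 0 hk), hc (i - P + ((0 : ℕ) : ℤ))]
      simp
    | succ k ih =>
      intro hk
      rw [Z.fold_succ _ (k + 1) _ (hu (k + 1) hk), ih (by omega), hc (i - P + ((k + 1 : ℕ) : ℤ)),
        show i - P + ((k + 1 : ℕ) : ℤ) - 1 = i - P + k by push_cast; ring]
  have h2 := Z.prod_get (List.replicate P (c (i - P - 1)))
    (List.ofFn (fun k : Fin (P + 1) => (c (i - P + k)).1)) c (i - P) 0 hu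
    (fun x hx k _ hk => by rw [(List.mem_replicate.mp hx).2]; exact hl k hk) P (by simp) (by simp)
  rw [List.map_replicate, List.prod_replicate, h0, List.length_replicate, Equiv.Perm.one_apply,
    List.getElem?_ofFn, dif_pos (Nat.lt_succ_self P)] at h2
  simp only [sub_add_cancel, Option.some.injEq] at h2
  exact Prod.ext h2.symm (Z.iter_lane c P i)

theorem Dat.finite_of_per [Finite Δ] (x0 : α) (d0 : Δ) (N : ℕ)
    (hs : ∀ (l : List α) (d d' : Δ), N ≤ l.length → l.foldl Z.nxt d = l.foldl Z.nxt d')
    (P : ℕ) (hP : 0 < P) (h : ∀ c, (ca Z.ρ)^[P] c = c) :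
    Finite (Subgroup.closure (Set.range Z.g)) := by
  let K : Set (Equiv.Perm (List α)) := {g | (∀ u, (g u).length = u.length) ∧
    (∀ u, (g u).take (N + P) = g (u.take (N + P))) ∧ ∀ u k, N + P ≤ k → (g u)[k]? = u[k]?}
  have hK : K.Finite := by
    have : Finite {u : List α | u.length ≤ N + P} := List.finite_length_le α (N + P)
    let φ : K → ({u : List α | u.length ≤ N + P} → {u : List α | u.length ≤ N + P}) :=
      fun g u => ⟨g.1 u.1, by rw [Set.mem_ofPred_eq, g.2.1]; exact u.2⟩
    apply Finite.of_injective φ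
    intro g g' hg
    refine Subtype.ext (Equiv.ext fun u => List.ext_getElem? fun k => ?_)
    by_cases hk : N + P ≤ k
    · rw [g.2.2.2 u k hk, g'.2.2.2 u k hk]
    · have h1 := congrArg Subtype.val (congrFun hg ⟨u.take (N + P), List.length_take_le _ _⟩)
      simp only [φ] at h1
      rw [← g.2.2.1, ← g'.2.2.1] at h1
      have h2 := congrArg (fun l => l[k]?) h1
      simpa only [List.getElem?_take_of_lt (not_le.mp hk)] using h2
  have hmul : ∀ g ∈ K, ∀ g' ∈ K, g * g' ∈ K := by
    intro g hg g' hg'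
    refine ⟨fun u => ?_, fun u => ?_, fun u k hk => ?_⟩
    · rw [Equiv.Perm.mul_apply, hg.1, hg'.1]
    · rw [Equiv.Perm.mul_apply, hg.2.1, hg'.2.1, Equiv.Perm.mul_apply]
    · rw [Equiv.Perm.mul_apply, hg.2.2 _ _ hk, hg'.2.2 _ _ hk]
  have hw : ∀ w : List (α × Δ), w.length = P → (w.map Z.g).prod ∈ K := by
    intro w hw
    refine ⟨Z.prod_length w, fun u => Z.prod_take w u (N + P), fun u k hk => ?_⟩
    by_cases h1 : k < u.length
    · let c : ℤ → α × Δ := fun i => (u.getD i.toNat x0, (u.take (i.toNat + 1)).foldl Z.nxt d0)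
      have h2 : ∀ k, k < u.length → u[k]? = some (c ((0 : ℤ) + k)).1 := by
        intro k hk
        simp only [c]
        rw [zero_add, Int.toNat_natCast, List.getD_eq_getElem _ _ hk, List.getElem?_eq_getElem hk]
      have h3 : ∀ x ∈ w, ∀ k, N ≤ k → k < u.length →
          (u.take (k + 1)).foldl Z.nxt x.2 = (c ((0 : ℤ) + k)).2 := by
        intro x _ k hk hk'
        simp only [c]
        rw [zero_add, Int.toNat_natCast]
        exact hs _ _ _ (by rw [List.length_take]; omega)
      rw [Z.prod_get w u c 0 N h2 h3 k (by omega) h1, hw, h, h2 k h1]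
    · rw [List.getElem?_eq_none (by rw [Z.prod_length]; omega), List.getElem?_eq_none (by omega)]
  let R : Set (Equiv.Perm (List α)) := (fun w : List (α × Δ) => (w.map Z.g).prod) ''
    {w : List (α × Δ) | w.length ≤ P}
  have hR : R.Finite := (List.finite_length_le (α × Δ) P).image _
  have hall : ∀ n, ∀ w : List (α × Δ), w.length = n → (w.map Z.g).prod ∈ R * K := by
    intro n
    induction n using Nat.strong_induction_on with
    | _ n ih =>
      intro w hn
      by_cases h1 : n ≤ P
      · exact ⟨_, ⟨w, by rw [Set.mem_ofPred_eq, hn]; exact h1, rfl⟩, 1,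
          ⟨fun _ => rfl, fun _ => rfl, fun _ _ _ => rfl⟩, mul_one _⟩
      · obtain ⟨r, hr, k, hk, e⟩ := ih (n - P) (by omega) (w.take (n - P)) (by simp; omega)
        refine ⟨r, hr, _, hmul k hk _ (hw (w.drop (n - P)) (by simp; omega)), ?_⟩
        simp only at e ⊢
        rw [← mul_assoc, e, ← List.prod_append, ← List.map_append, List.take_append_drop]
  have hM : (Submonoid.closure (Set.range Z.g) : Set (Equiv.Perm (List α))).Finite := by
    refine (hR.mul hK).subset fun g hg => ?_
    obtain ⟨l, h1, rfl⟩ := Submonoid.exists_list_of_mem_closure hg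
    obtain ⟨w, rfl⟩ : ∃ w : List (α × Δ), w.map Z.g = l := by
      clear hg
      induction l with
      | nil => exact ⟨[], rfl⟩
      | cons y l ih =>
        obtain ⟨w, rfl⟩ := ih (fun y hy => h1 y (List.mem_cons_of_mem _ hy))
        obtain ⟨x, rfl⟩ := h1 y (by simp)
        exact ⟨x :: w, rfl⟩
    exact hall _ w rfl
  refine Set.Finite.to_subtype (hM.subset fun g hg => ?_)
  induction hg using Subgroup.closure_induction with
  | mem g hg => exact Submonoid.subset_closure hg
  | one => exact one_mem _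
  | mul g g' _ _ h1 h2 => exact mul_mem h1 h2
  | inv g _ h1 =>
    have h2 : Submonoid.powers g ≤ Submonoid.closure (Set.range Z.g) :=
      Submonoid.powers_le.mpr h1
    have h3 : IsOfFinOrder g := finite_powers.mp (hM.subset h2)
    exact h2 (h3.mem_powers_iff_mem_zpowers.mpr (inv_mem (Subgroup.mem_zpowers g)))

end Pool.Agent.FS.FixAlph
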