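import Pool.Agent.FS.FixAlph.Main

/-!
Adding one letter, fixed by every state and leading to the first state.
-/

namespace Pool.Agent.FS.FixAlph

open Function

/-- Cut a word at the new letter. -/
def cut {m : ℕ} : List (Fin (m + 1)) → List (Fin m) × List (List (Fin m))
  | [] => ([], [])
  | a :: w => Fin.cases ([], (cut w).1 :: (cut w).2) (fun i => (i :: (cut w).1, (cut w).2)) a

theorem cut_zero {m : ℕ} (w : List (Fin (m + 1))) :
    cut (0 :: w) = ([], (cut w).1 :: (cut w).2) := rfl

theorem cut_succ {m : ℕ} (i : Fin m) (w : List (Fin (m + 1))) :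
    cut (i.succ :: w) = (i :: (cut w).1, (cut w).2) := rfl

theorem cut_bijective (m : ℕ) : Bijective (cut (m := m)) := by
  constructor
  · intro w w' h
    induction w generalizing w' with
    | nil => cases w' with
      | nil => rfl
      | cons b w' =>
        induction b using Fin.cases with
        | zero => simp [cut] at h
        | succ j => simp [cut] at h
    | cons a w ih =>
      induction a using Fin.cases with
      | zero => cases w' with
        | nil => simp [cut] at h
        | cons b w' =>
          induction b using Fin.cases with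
          | zero =>
            simp only [cut_zero, Prod.mk.injEq, List.cons.injEq, true_and] at h
            rw [ih (Prod.ext h.1 h.2)]
          | succ j => simp [cut_zero, cut_succ] at h
      | succ i => cases w' with
        | nil => simp [cut] at h
        | cons b w' =>
          induction b using Fin.cases with
          | zero => simp [cut_zero, cut_succ] at h
          | succ j =>
            simp only [cut_succ, Prod.mk.injEq, List.cons.injEq] at h
            rw [ih (Prod.ext h.1.2 h.2), h.1.1]
  · have key : ∀ (u : List (Fin m)) (L : List (List (Fin m))), (∃ w, cut w = ([], L)) →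
        ∃ w, cut w = (u, L) := by
      intro u L h
      induction u with
      | nil => exact h
      | cons i u ih =>
        obtain ⟨w, hw⟩ := ih
        exact ⟨i.succ :: w, by rw [cut_succ, hw]⟩
    rintro ⟨u, L⟩
    apply key
    induction L with
    | nil => exact ⟨[], rfl⟩
    | cons v L ih =>
      obtain ⟨w, hw⟩ := key v L ih
      exact ⟨0 :: w, by rw [cut_zero, hw]⟩

/-- A pair of permutations acts on the first block and on the later blocks. -/
noncomputable def blocks (m : ℕ) : Equiv.Perm (List (Fin m)) × Equiv.Perm (List (Fin m)) →*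
    Equiv.Perm (List (Fin (m + 1))) :=
  MonoidHom.mk' (fun p => (Equiv.ofBijective _ (cut_bijective m)).symm.permCongr
    (p.1.prodCongr p.2.listEquivOfEquiv)) (by
      intro p q
      ext1 w
      simp [Equiv.listEquivOfEquiv, Prod.map])

theorem cut_blocks (m : ℕ) (p : Equiv.Perm (List (Fin m)) × Equiv.Perm (List (Fin m)))
    (w : List (Fin (m + 1))) : cut (blocks m p w) = (p.1 (cut w).1, (cut w).2.map p.2) :=
  (Equiv.ofBijective _ (cut_bijective m)).apply_symm_apply _

theorem blocks_injective (m : ℕ) : Injective (blocks m) := by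
  intro p q h
  have h1 : ∀ u L, (p.1 u, List.map p.2 L) = (q.1 u, List.map q.2 L) := by
    intro u L
    obtain ⟨w, hw⟩ := (cut_bijective m).2 (u, L)
    have h2 := cut_blocks m p w
    rw [h, cut_blocks, hw] at h2
    exact h2.symm
  refine Prod.ext (Equiv.ext fun u => congrArg Prod.fst (h1 u [])) (Equiv.ext fun u => ?_)
  simpa using congrArg Prod.snd (h1 [] [u])

variable {n m : ℕ} (δ : Fin n → Fin m → Fin n) (ρ : Fin n → Equiv.Perm (Fin m))

/-- The transitions with the new letter. -/
def extD (x : Fin n) : Fin (m + 1) → Fin n := Fin.cons ⟨0, x.pos⟩ (δ x)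

/-- The output permutations with the new letter. -/
def extR (x : Fin n) : Equiv.Perm (Fin (m + 1)) := Equiv.Perm.decomposeFin.symm (0, ρ x)

theorem extR_zero (x : Fin n) : extR ρ x 0 = 0 := by simp [extR]

theorem extR_succ (x : Fin n) (i : Fin m) : extR ρ x i.succ = (ρ x i).succ := by simp [extR]

theorem cut_mealy (x : Fin n) (h : 0 < n) (w : List (Fin (m + 1))) :
    cut (mealy (extD δ) (extR ρ) x w) =
      (mealy δ ρ x (cut w).1, (cut w).2.map (mealy δ ρ ⟨0, h⟩)) := by
  induction w generalizing x with
  | nil => rfl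
  | cons a w ih =>
    induction a using Fin.cases with
    | zero => rw [mealy_cons, extR_zero, cut_zero, cut_zero, ih]; rfl
    | succ i => rw [mealy_cons, extR_succ, cut_succ, cut_succ, ih]; rfl

theorem ext_finite_iff :
    Finite (Subgroup.closure {g : Equiv.Perm (List _) | ∃ x, ⇑g = mealy (extD δ) (extR ρ) x}) ↔
      Finite (Subgroup.closure {g : Equiv.Perm (List _) | ∃ x, ⇑g = mealy δ ρ x}) := by
  let g : Fin n → Equiv.Perm (List (Fin m)) :=
    fun x => Equiv.ofBijective _ (mealy_bijective δ ρ x)
  let T : Set (Equiv.Perm (List (Fin m)) × Equiv.Perm (List (Fin m))) :=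
    Set.range fun x : Fin n => (g x, g ⟨0, x.pos⟩)
  have hb : ∀ x : Fin n, ⇑(blocks m (g x, g ⟨0, x.pos⟩)) = mealy (extD δ) (extR ρ) x :=
    fun x => funext fun w => (cut_bijective m).1 (by rw [cut_blocks, cut_mealy δ ρ x x.pos]; rfl)
  have e1 : {g : Equiv.Perm (List _) | ∃ x, ⇑g = mealy (extD δ) (extR ρ) x} = blocks m '' T := by
    ext k
    constructor
    · rintro ⟨x, hx⟩
      exact ⟨_, ⟨x, rfl⟩, Equiv.ext fun w => congrFun ((hb x).trans hx.symm) w⟩
    · rintro ⟨_, ⟨x, rfl⟩, rfl⟩
      exact ⟨x, hb x⟩
  have e2 : {g : Equiv.Perm (List _) | ∃ x, ⇑g = mealy δ ρ x} = MonoidHom.fst _ _ '' T := by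
    ext k
    constructor
    · rintro ⟨x, hx⟩
      exact ⟨_, ⟨x, rfl⟩, Equiv.ext fun w => congrFun hx.symm w⟩
    · rintro ⟨_, ⟨x, rfl⟩, rfl⟩
      exact ⟨x, rfl⟩
  constructor
  · intro h
    rw [e1, ← MonoidHom.map_closure] at h
    rw [e2, ← MonoidHom.map_closure]
    have h0 : (blocks m '' (Subgroup.closure T : Subgroup _)).Finite := h
    have h1 := Set.Finite.of_finite_image h0 (blocks_injective m).injOn
    exact (h1.image _).to_subtype
  · intro h
    rw [e1, ← MonoidHom.map_closure]
    have h1 : Subgroup.closure T ≤ (Subgroup.closure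
        {g : Equiv.Perm (List _) | ∃ x, ⇑g = mealy δ ρ x}).prod (Subgroup.closure
        {g : Equiv.Perm (List _) | ∃ x, ⇑g = mealy δ ρ x}) := by
      rw [Subgroup.closure_le]
      rintro _ ⟨x, rfl⟩
      exact ⟨Subgroup.subset_closure ⟨x, rfl⟩, Subgroup.subset_closure ⟨_, rfl⟩⟩
    have h3 : (Subgroup.closure {g : Equiv.Perm (List _) | ∃ x, ⇑g = mealy δ ρ x} :
        Set (Equiv.Perm (List (Fin m)))).Finite := h
    have h2 : (Subgroup.closure T : Set _).Finite :=
      (h3.prod h3).subset fun p hp => h1 hp
    exact (h2.image _).to_subtype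

theorem ext_definite (k : ℕ)
    (h : ∀ u : List (Fin m), u.length = k → ∀ x y, u.foldl δ x = u.foldl δ y)
    (u : List (Fin (m + 1))) (hu : u.length = k) (x y : Fin n) :
    u.foldl (extD δ) x = u.foldl (extD δ) y := by
  have key : ∀ (u : List (Fin (m + 1))), (∀ x y, u.foldl (extD δ) x = u.foldl (extD δ) y) ∨
      ∃ v : List (Fin m), v.length = u.length ∧ ∀ x, u.foldl (extD δ) x = v.foldl δ x := by
    intro u
    induction u with
    | nil => exact Or.inr ⟨[], rfl, fun _ => rfl⟩
    | cons a u ih =>
      induction a using Fin.cases with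
      | zero => exact Or.inl fun _ _ => rfl
      | succ i =>
        rcases ih with h1 | ⟨v, h1, h2⟩
        · exact Or.inl fun _ _ => h1 _ _
        · exact Or.inr ⟨i :: v, congrArg (· + 1) h1, fun x => h2 _⟩
  rcases key u with h1 | ⟨v, h1, h2⟩
  · exact h1 x y
  · rw [h2, h2, h v (h1.trans hu)]

theorem large_alphabets :
    ∃ m₀ : ℕ, ∀ m : ℕ, m₀ ≤ m → ¬ ∃ D : ℕ × List (List ℕ) × List (List ℕ) →. Bool, Partrec D ∧
      ∀ (n : ℕ) (δ : Fin n → Fin m → Fin n) (ρ : Fin n → Equiv.Perm (Fin m)),
        (∃ k : ℕ, ∀ u : List (Fin m), u.length = k → ∀ x y, u.foldl δ x = u.foldl δ y) →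
        ∃ b ∈ D (n, List.ofFn fun x => List.ofFn fun i => (δ x i).val,
            List.ofFn fun x => List.ofFn fun i => (ρ x i).val),
          (b = true ↔ Finite (Subgroup.closure
            {g : Equiv.Perm (List (Fin m)) | ∃ x, ⇑g = mealy δ ρ x})) := by
  obtain ⟨m₀, h0⟩ := fixed_alphabet
  refine ⟨m₀, fun m hm => ?_⟩
  induction m, hm using Nat.le_induction with
  | base => exact h0
  | succ m _ ih =>
    rintro ⟨D, hD, h⟩
    have hp : Primrec fun y : ℕ × List (List ℕ) × List (List ℕ) =>
        (y.1, y.2.1.map (fun r => 0 :: r), y.2.2.map fun r => 0 :: r.map Nat.succ) := by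
      refine Primrec.pair Primrec.fst (Primrec.pair ?_ ?_)
      · exact Primrec.list_map (Primrec.fst.comp Primrec.snd)
          (Primrec.list_cons.comp (Primrec.const 0) Primrec.snd).to₂
      · exact Primrec.list_map (Primrec.snd.comp Primrec.snd)
          (Primrec.list_cons.comp (Primrec.const 0)
            (Primrec.list_map Primrec.snd (Primrec.succ.comp Primrec.snd).to₂)).to₂
    refine ih ⟨_, hD.comp hp.to_comp, fun n δ ρ ⟨k, hk⟩ => ?_⟩
    obtain ⟨b, h1, h2⟩ := h n (extD δ) (extR ρ) ⟨k, ext_definite δ k hk⟩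
    refine ⟨b, ?_, h2.trans (ext_finite_iff δ ρ)⟩
    convert h1 using 4
    · simp [List.map_ofFn, List.ofFn_succ, extD, Function.comp_def]
    · simp [List.map_ofFn, List.ofFn_succ, extR_zero, extR_succ, Function.comp_def]

end Pool.Agent.FS.FixAlph
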