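import Pool.Agent.Lib.MP_322aed_lc.Final
import Pool.Agent.FS.FixAlph.Bridge

/-!
The automaton of an input over one alphabet, its tables, and the reduction.
-/

namespace Pool.Agent.FS.FixAlph

open Function Pool.Agent.Lib.MP_322aed_lc Pool.Agent.Lib.MP_1ebeae_al

/-- The counter: zero at a marker, otherwise one more, capped at `N - 1`. -/
def cnt (N : ℕ) (b : Bool) (d : ℕ) : ℕ := cond b 0 (min (d + 1) (N - 1))

theorem cnt_lt (N : ℕ) (b : Bool) (d : Fin N) : cnt N b d.val < N := by
  have := d.2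
  cases b <;> simp only [cnt, cond] <;> omega

theorem cnt_sync {α : Type} (N : ℕ) (f : α → Bool) (l : List α) (k : ℕ) (d d' : Fin N)
    (h : d = d' ∨ (min k (N - 1) ≤ d.val ∧ min k (N - 1) ≤ d'.val)) :
    l.foldl (fun (d : Fin N) a => (⟨cnt N (f a) d.val, cnt_lt N _ d⟩ : Fin N)) d =
      l.foldl (fun (d : Fin N) a => (⟨cnt N (f a) d.val, cnt_lt N _ d⟩ : Fin N)) d' ∨
    k + l.length < N := by
  induction l generalizing k d d' with
  | nil =>
    rcases h with h | h
    · exact Or.inl h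
    · by_cases hk : k < N
      · exact Or.inr hk
      · left
        have := d.2
        have := d'.2
        exact (Fin.ext (by omega) : d = d')
  | cons a l ih =>
    rw [List.foldl_cons, List.foldl_cons, List.length_cons,
      show k + (l.length + 1) = k + 1 + l.length by omega]
    apply ih
    rcases h with rfl | h
    · exact Or.inl rfl
    · cases hf : f a
      · right
        simp only [cnt, cond]
        omega
      · left
        rfl

section

variable {Q ι : Type} [Fintype Q] [Fintype ι] [DecidableEq ι] (M : Mach Q ι)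
  (S : Sys (Lab := MLab Q ι) Prod.fst (MLh M))

/-- The marker of the input register, read on a letter. -/
noncomputable def mark (a : Fin (Fintype.card S.Cell)) : Bool :=
  ((Fintype.equivFin S.Cell).symm a).1.1.2.2.2.1 M.input

/-- The data of the automaton with counter below `N`. -/
noncomputable def dat (N : ℕ) : Dat (Fin (Fintype.card S.Cell)) (Fin N) where
  ρ x := ((Fintype.equivFin S.Cell).prodCongr (Equiv.refl _)).permCongr
    (rho M S N (((Fintype.equivFin S.Cell).prodCongr (Equiv.refl _)).symm x))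
  nxt d a := ⟨cnt N (mark M S a) d.val, cnt_lt N _ d⟩
  lane _ _ := rfl
  inv x y d := by
    apply Fin.ext
    show cnt N (mark M S _) d.val = cnt N (mark M S _) d.val
    congr 1
    simp [mark, rho, Sys.stp]

theorem dat_sync (N : ℕ) (l : List (Fin (Fintype.card S.Cell))) (d d' : Fin N)
    (h : N ≤ l.length) : l.foldl (dat M S N).nxt d = l.foldl (dat M S N).nxt d' := by
  rcases cnt_sync N (mark M S) l 0 d d' (Or.inr ⟨by omega, by omega⟩) with h1 | h1
  · exact h1
  · omega

theorem not_per' (n : ℕ) (hn : ∀ j, (M.run n j).1 ≠ M.halt) (P : ℕ) (hP : 0 < P) :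
    ¬ ∀ c : ℤ → Fin (Fintype.card S.Cell) × Fin (3 ^ (n + 1)),
      (∀ i, (c i).2 = (dat M S (3 ^ (n + 1))).nxt (c (i - 1)).2 (c i).1) →
        (ca (dat M S (3 ^ (n + 1))).ρ)^[P] c = c := by
  intro h
  have hp : (0 : ℤ) < 3 ^ (n + 1) := by positivity
  have hv : ∀ i : ℤ, (((i % 3 ^ (n + 1)).toNat : ℕ) : ℤ) = i % 3 ^ (n + 1) :=
    fun i => Int.toNat_of_nonneg (Int.emod_nonneg _ hp.ne')
  let c : ℤ → S.Cell × Fin (3 ^ (n + 1)) := fun i => (S.cfg (mrow M n) P 0 i,
    ⟨(i % 3 ^ (n + 1)).toNat, by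
      have := Int.emod_lt_of_pos i hp
      rw [← hv] at this
      exact_mod_cast this⟩)
  have hsucc : ∀ i : ℤ, (c i).2.val = ((c (i - 1)).2.val + 1) % 3 ^ (n + 1) := by
    intro i
    simp only [c]
    rw [← Int.natCast_inj]
    push_cast
    rw [hv, hv, Int.emod_add_emod, sub_add_cancel]
  have hc : (ca (rho M S (3 ^ (n + 1))))^[P] c = c := by
    let e := (Fintype.equivFin S.Cell).prodCongr (Equiv.refl (Fin (3 ^ (n + 1))))
    have hs : Semiconj (fun (c : ℤ → S.Cell × Fin (3 ^ (n + 1))) i => e (c i))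
        (ca (rho M S (3 ^ (n + 1)))) (ca (dat M S (3 ^ (n + 1))).ρ) := by
      intro c
      funext i
      show _ = e.permCongr (rho M S _ (e.symm (e (c (i - 1))))) (e (c i))
      simp [ca]
    have h1 := (hs.iterate_right P c).trans (h _ (by
      intro i
      apply Fin.ext
      show (c i).2.val = cnt _ (mark M S (Fintype.equivFin S.Cell (c i).1)) (c (i - 1)).2.val
      have e0 : (M.run n 0).2 M.input = n + 1 := by simp [Mach.run]
      have e1 : mark M S (Fintype.equivFin S.Cell (c i).1) = decide ((c i).2.val = 0) := by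
        simp only [mark, Equiv.symm_apply_apply, c, Sys.cfg_hd, mrow, e0]
        rw [decide_eq_decide, Int.dvd_iff_emod_eq_zero, ← hv]
        simp
      rw [e1]
      by_cases h0 : (c i).2.val = 0
      · simp [cnt, h0]
      · have h2 := hsucc i
        have h3 := (c (i - 1)).2.2
        rcases Nat.lt_or_ge ((c (i - 1)).2.val + 1) (3 ^ (n + 1)) with h4 | h4
        · rw [Nat.mod_eq_of_lt h4] at h2
          simp only [cnt, h0, decide_false, cond]
          omega
        · rw [show (c (i - 1)).2.val + 1 = 3 ^ (n + 1) by omega, Nat.mod_self] at h2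
          exact absurd h2 h0))
    funext i
    exact e.injective (congrFun h1 i)
  apply S.cfg_not_per (mrow M n) (fun _ _ => rfl) (mrow_ok M n hn) P hP
  funext i
  have h1 := congrArg Prod.fst ((rho_iter M S _ c P i).symm.trans (congrFun hc i))
  have h2 : (fun i => ex0 M (c (i - 1)).1.1.1
      (decide ((c i).2.val = ((c (i - 1)).2.val + 1) % 3 ^ (n + 1)))
      (decide ((c (i - 1)).2.val = 0))) = fun _ => True := by
    funext i
    rw [eq_iff_iff, iff_true]
    refine ⟨decide_eq_true (hsucc i), ?_⟩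
    simp only [c, Sys.cfg_hd]
    refine ⟨rfl, fun r => ?_⟩
    by_cases hr : r = M.input
    · have e : (M.run n 0).2 r = n + 1 := by simp [Mach.run, hr]
      simp only [mrow, e, decide_eq_true_eq]
      rw [Int.dvd_iff_emod_eq_zero, ← hv]
      simp [hr]
    · have e : (M.run n 0).2 r = 0 := by simp [Mach.run, hr]
      simp [mrow, e, hr]
  rw [h2] at h1
  exact h1

/-- The transitions of the automaton of input `n`. -/
noncomputable def autD (n : ℕ) (x : Fin (Fintype.card S.Cell * 3 ^ (n + 1)))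
    (a : Fin (Fintype.card S.Cell)) : Fin (Fintype.card S.Cell * 3 ^ (n + 1)) :=
  finProdFinEquiv ((dat M S (3 ^ (n + 1))).δ (finProdFinEquiv.symm x) a)

/-- The output permutations of the automaton of input `n`. -/
noncomputable def autR (n : ℕ) (x : Fin (Fintype.card S.Cell * 3 ^ (n + 1))) :
    Equiv.Perm (Fin (Fintype.card S.Cell)) :=
  (dat M S (3 ^ (n + 1))).σ (finProdFinEquiv.symm x)

theorem gens_aut (n : ℕ) :
    {g : Equiv.Perm (List _) | ∃ x, ⇑g = mealy (autD M S n) (autR M S n) x} =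
      Set.range (dat M S (3 ^ (n + 1))).g := by
  have h := mealy_congr finProdFinEquiv (dat M S (3 ^ (n + 1))).δ (dat M S (3 ^ (n + 1))).σ
  ext g
  constructor
  · rintro ⟨x, hx⟩
    exact ⟨finProdFinEquiv.symm x, Equiv.ext fun u => ((congrFun hx u).trans (h x u)).symm⟩
  · rintro ⟨x, rfl⟩
    refine ⟨finProdFinEquiv x, funext fun u => ?_⟩
    have := h (finProdFinEquiv x) u
    rw [Equiv.symm_apply_apply] at this
    exact this.symm

theorem fix_finite_iff (n : ℕ) :
    Finite (Subgroup.closure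
      {g : Equiv.Perm (List _) | ∃ x, ⇑g = mealy (autD M S n) (autR M S n) x}) ↔
      ∃ r, (M.run n r).1 = M.halt := by
  rw [gens_aut]
  constructor
  · intro h
    obtain ⟨P, h1, h2⟩ := (dat M S (3 ^ (n + 1))).per_of_finite h
    by_contra h3
    exact not_per' M S n (fun j hj => h3 ⟨j, hj⟩) P h1 h2
  · rintro ⟨J, hJ⟩
    obtain ⟨P, h1, h2⟩ := per_of_halt M S n J hJ
    exact (dat M S (3 ^ (n + 1))).finite_of_per ⟨0, cell_pos M S⟩ ⟨0, by positivity⟩ _
      (dat_sync M S _) P h1 ((ca_congr _ _ P).mpr h2)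

theorem autD_fold (n : ℕ) (u : List (Fin (Fintype.card S.Cell)))
    (x : Fin (Fintype.card S.Cell * 3 ^ (n + 1))) :
    (finProdFinEquiv.symm (u.foldl (autD M S n) x)).2 =
      u.foldl (dat M S (3 ^ (n + 1))).nxt (finProdFinEquiv.symm x).2 := by
  induction u generalizing x with
  | nil => rfl
  | cons a u ih => rw [List.foldl_cons, List.foldl_cons, ih, autD, Equiv.symm_apply_apply]; rfl

theorem autD_definite (n : ℕ) (u : List (Fin (Fintype.card S.Cell)))
    (hu : u.length = 3 ^ (n + 1) + 1) (x y : Fin (Fintype.card S.Cell * 3 ^ (n + 1))) :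
    u.foldl (autD M S n) x = u.foldl (autD M S n) y := by
  rcases List.eq_nil_or_concat' u with rfl | ⟨l, a, rfl⟩
  · simp at hu
  · rw [List.foldl_append, List.foldl_append, List.foldl_cons, List.foldl_cons, List.foldl_nil,
      List.foldl_nil, autD, autD, Dat.δ, Dat.δ, autD_fold, autD_fold,
      dat_sync M S _ l _ (finProdFinEquiv.symm y).2 (by simp at hu; omega)]

/-- The next value of the counter, on numbers. -/
noncomputable def entC (N x i : ℕ) : ℕ :=
  cnt N (mark M S ⟨i % _, Nat.mod_lt _ (cell_pos M S)⟩) (x % N)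

/-- An entry of the transition table. -/
noncomputable def entD (N x i : ℕ) : ℕ := entC M S N x i + N * i

/-- An entry of the output table. -/
noncomputable def entR (N x i : ℕ) : ℕ :=
  tbl M S (⟨x / N % _, Nat.mod_lt _ (cell_pos M S)⟩, ⟨i % _, Nat.mod_lt _ (cell_pos M S)⟩,
    decide (entC M S N x i = (x % N + 1) % N), decide (x % N = 0))

theorem fin_mod (i : Fin (Fintype.card S.Cell)) :
    (⟨i.val % _, Nat.mod_lt _ (cell_pos M S)⟩ : Fin (Fintype.card S.Cell)) = i :=
  Fin.ext (Nat.mod_eq_of_lt i.2)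

theorem autD_val (n : ℕ) (x : Fin (Fintype.card S.Cell * 3 ^ (n + 1)))
    (i : Fin (Fintype.card S.Cell)) :
    (autD M S n x i).val = entD M S (3 ^ (n + 1)) x.val i.val := by
  rw [entD, entC, fin_mod]
  rfl

theorem autR_val (n : ℕ) (x : Fin (Fintype.card S.Cell * 3 ^ (n + 1)))
    (i : Fin (Fintype.card S.Cell)) :
    (autR M S n x i).val = entR M S (3 ^ (n + 1)) x.val i.val := by
  have h : (⟨x.val / 3 ^ (n + 1) % _, Nat.mod_lt _ (cell_pos M S)⟩ : Fin (Fintype.card S.Cell)) =
      x.divNat := Fin.ext (Nat.mod_eq_of_lt x.divNat.2)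
  rw [entR, entC, fin_mod, h]
  rfl

theorem primrec_entC : Primrec fun y : ℕ × ℕ × ℕ => entC M S y.1 y.2.1 y.2.2 := by
  have hN : Primrec fun y : ℕ × ℕ × ℕ => y.1 := Primrec.fst
  have hx : Primrec fun y : ℕ × ℕ × ℕ => y.2.1 := Primrec.fst.comp Primrec.snd
  have hi : Primrec fun y : ℕ × ℕ × ℕ => y.2.2 := Primrec.snd.comp Primrec.snd
  exact Primrec.cond ((Primrec.dom_finite (mark M S)).comp
    (Primrec.fin_val_iff.mp (Primrec.nat_mod.comp hi (Primrec.const _)))) (Primrec.const 0)
    (Primrec.nat_min.comp (Primrec.succ.comp (Primrec.nat_mod.comp hx hN))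
      (Primrec.nat_sub.comp hN (Primrec.const 1)))

theorem primrec_entD : Primrec fun y : ℕ × ℕ × ℕ => entD M S y.1 y.2.1 y.2.2 :=
  Primrec.nat_add.comp (primrec_entC M S)
    (Primrec.nat_mul.comp Primrec.fst (Primrec.snd.comp Primrec.snd))

theorem primrec_entR : Primrec fun y : ℕ × ℕ × ℕ => entR M S y.1 y.2.1 y.2.2 := by
  have hN : Primrec fun y : ℕ × ℕ × ℕ => y.1 := Primrec.fst
  have hx : Primrec fun y : ℕ × ℕ × ℕ => y.2.1 := Primrec.fst.comp Primrec.snd
  have hi : Primrec fun y : ℕ × ℕ × ℕ => y.2.2 := Primrec.snd.comp Primrec.snd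
  refine (Primrec.dom_finite (tbl M S)).comp
    (Primrec.pair ?_ (Primrec.pair ?_ (Primrec.pair ?_ ?_)))
  · exact Primrec.fin_val_iff.mp
      (Primrec.nat_mod.comp (Primrec.nat_div.comp hx hN) (Primrec.const _))
  · exact Primrec.fin_val_iff.mp (Primrec.nat_mod.comp hi (Primrec.const _))
  · exact (Primrec.eq.comp (primrec_entC M S) (Primrec.nat_mod.comp
      (Primrec.succ.comp (Primrec.nat_mod.comp hx hN)) hN)).decide
  · exact (Primrec.eq.comp (Primrec.nat_mod.comp hx hN) (Primrec.const 0)).decide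

/-- A table of the automaton of input `n`. -/
def tab (K : ℕ) (f : ℕ → ℕ → ℕ → ℕ) (n : ℕ) : List (List ℕ) :=
  (List.range (K * 3 ^ (n + 1))).map fun x => (List.range K).map fun i => f (3 ^ (n + 1)) x i

theorem primrec_size (K : ℕ) : Primrec fun n : ℕ => K * 3 ^ (n + 1) := by
  have hp : Primrec₂ ((· ^ ·) : ℕ → ℕ → ℕ) := Primrec₂.unpaired'.1 Nat.Primrec.pow
  exact Primrec.nat_mul.comp (Primrec.const _) (hp.comp (Primrec.const 3) Primrec.succ)

theorem primrec_tab (K : ℕ) (f : ℕ → ℕ → ℕ → ℕ)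
    (hf : Primrec fun y : ℕ × ℕ × ℕ => f y.1 y.2.1 y.2.2) : Primrec (tab K f) := by
  have hp : Primrec₂ ((· ^ ·) : ℕ → ℕ → ℕ) := Primrec₂.unpaired'.1 Nat.Primrec.pow
  have hN : Primrec fun n : ℕ => 3 ^ (n + 1) := hp.comp (Primrec.const 3) Primrec.succ
  refine Primrec.list_map (Primrec.list_range.comp (primrec_size K)) ?_
  have h1 : Primrec fun y : (ℕ × ℕ) × ℕ => f (3 ^ (y.1.1 + 1)) y.1.2 y.2 :=
    hf.comp (Primrec.pair (hN.comp (Primrec.fst.comp Primrec.fst))
      (Primrec.pair (Primrec.snd.comp Primrec.fst) Primrec.snd))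
  have h2 : Primrec fun y : ℕ × ℕ => (List.range K).map fun i => f (3 ^ (y.1 + 1)) y.2 i :=
    Primrec.list_map (Primrec.const _) h1.to₂
  exact h2.to₂

theorem tab_eq (K : ℕ) (f : ℕ → ℕ → ℕ → ℕ) (n : ℕ) : tab K f n =
    List.ofFn fun x : Fin (K * 3 ^ (n + 1)) => List.ofFn fun i : Fin K =>
      f (3 ^ (n + 1)) x.val i.val := by
  rw [tab, ← ofFn_eq_map]
  simp only [← ofFn_eq_map]

end

theorem fixed_alphabet :
    ∃ m : ℕ, ¬ ∃ D : ℕ × List (List ℕ) × List (List ℕ) →. Bool, Partrec D ∧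
      ∀ (n : ℕ) (δ : Fin n → Fin m → Fin n) (ρ : Fin n → Equiv.Perm (Fin m)),
        (∃ k : ℕ, ∀ u : List (Fin m), u.length = k → ∀ x y, u.foldl δ x = u.foldl δ y) →
        ∃ b ∈ D (n, List.ofFn fun x => List.ofFn fun i => (δ x i).val,
            List.ofFn fun x => List.ofFn fun i => (ρ x i).val),
          (b = true ↔ Finite (Subgroup.closure
            {g : Equiv.Perm (List (Fin m)) | ∃ x, ⇑g = mealy δ ρ x})) := by
  obtain ⟨Q, ι, _, _, _, M, hM⟩ := exists_mach_undecidable
  obtain ⟨S⟩ := exists_sys (Lab := MLab Q ι) Prod.fst (MLh M)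
  refine ⟨Fintype.card S.Cell, ?_⟩
  rintro ⟨D, hD, h⟩
  choose g hg using fun n => h _ (autD M S n) (autR M S n) ⟨_, autD_definite M S n⟩
  refine hM (ComputablePred.computable_iff.mpr ⟨g, ?_, funext fun n => propext ?_⟩)
  · refine (hD.comp (Primrec.pair (primrec_size (Fintype.card S.Cell)) (Primrec.pair
      (primrec_tab (Fintype.card S.Cell) _ (primrec_entD M S))
      (primrec_tab (Fintype.card S.Cell) _ (primrec_entR M S)))).to_comp).of_eq_tot fun n => ?_
    have := (hg n).1
    simp only [autD_val, autR_val] at this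
    rw [tab_eq, tab_eq]
    exact this
  · rw [← fix_finite_iff M S n]
    exact (hg n).2.symm

end Pool.Agent.FS.FixAlph
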